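import Pool.Agent.Y463.VL.Fin

/-!
# Vassiliev invariants of bounded order separate the members of a twist family

Diagrams (starting library `Pool.Agent.H891R2.Jones.Diagram`): `Diagram P` (oriented link diagrams with
marked points `P`), `Outer m` (the part of an oriented diagram outside a box through which `m` strands run,
with arbitrary directions; neither planarity nor closedness is required).  `Pool.Agent.W639.RB.Defs`:
`Letter m = Bool × Fin (m - 1)` (the letters `σ_i^{±1}`).
Vassiliev invariants (starting library `Pool.Agent.H832R3.VJ.Defs`): `Dia` (an oriented diagram with the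
finite set of its marked points), `Separated d X Y` (some integer valued Vassiliev invariant of oriented
links of order at most `d` has different values on `X` and `Y`).
`Pool.Agent.Y463.UT.Defs`: `Law` (probability distributions with finite support on `ℤ`), `Law.Spread ε` (no
value has probability larger than `ε`), `prob μ E` (the probability of `E` for independent integers with the
distributions `μ_j`), `tw i x` (the word `σ_{i_1}^{x_1} ⋯ σ_{i_k}^{x_k}`), `turns i μ ε` (the number of `j` such
that `|i_j - i_{j+1}| = 1` and `μ_j`, `μ_{j+1}` are `ε`-spread).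
`Pool.Agent.Y463.VL.Defs`: `mem O i x` (the diagram with the word `tw i x` in the box of `O`, the rest of the
box being filled with vertical strands), `csize O`, `dsz Y` (the number of crossings plus twice the number of
marked points of an outside, of a diagram), `ordB m s k = 2 ^ (k + 1) (2 (s + (2 m + 5) k) + 1)`, `probT μ E`
(the probability of `E` for independent integers `x a j` with the distributions `μ a j`).

Proof.  `(-A^2 - A^{-2})^k` times the normalised bracket of `mem O i x` is a sum of `2^k` polynomials which do not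
depend on `x`, multiplied by units which do; so the difference of two of these brackets vanishes at `A = 1`
to an order bounded by the shapes.  The probability of a value of the normalised bracket is estimated in
`Pool.Agent.Y463.UT` (a Littlewood–Offord inequality).
-/

set_option autoImplicit false

namespace Pool.Agent.Results.MP_31fd3b_gt.BoundedOrderPairs

open Pool.Agent.H891R2.Jones Pool.Agent.W639.RB Pool.Agent.Y463.UT Pool.Agent.Y463.VL 
  Pool.Agent.H832R3.VJ

/-- Let `m ≥ 3`.  There is a constant `C` such that the following holds for all numbers `s`, `k`, `u` and all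
`ε > 0`.  Consider families of diagrams `D(x)`, `x ∈ ℤ^k`: an outside `O` of a box with `m` strands, with
`c + 2 p ≤ s` (`c` crossings and `p` marked points), and in the box the word `σ_{i_1}^{x_1} ⋯ σ_{i_k}^{x_k}`.  Let
`d = 2^(k+1) (2 (s + (2m+5) k) + 1)`, a number which does not depend on the exponents.  Let `x_1, …, x_k` be
independent random integers (with finite supports and arbitrary distributions), such that for at least
`u (m! + 1) (m! + 2)` values of `j` the places `i_j` and `i_{j+1}` are neighbouring and no value of `x_j` or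
`x_{j+1}` has probability larger than `ε`.
* For every diagram `Y` with `c + 2 p ≤ s` the link `D(x)` is not separated from `Y` by Vassiliev invariants of
  order at most `d` with probability at most `C (8ε)^{u/2}`.
* The same is true for every member `Y = D'(y)` of any other (or the same) family, with arbitrarily large
  fixed exponents `y ∈ ℤ^k`.
* Any set `B` of exponent vectors such that the links `D(x)`, `x ∈ B`, are pairwise not separated by Vassiliev
  invariants of order at most `d`, has probability at most `C (8ε)^{u/2}`.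
* If `M` families and independent random exponent vectors `x(1), …, x(M)` of this kind are given, then with
  probability at least `1 - M² C (8ε)^{u/2}` the links `D_1(x(1)), …, D_M(x(M))` are pairwise separated by
  Vassiliev invariants of order at most `d`. -/
theorem result (m : ℕ) (hm : 3 ≤ m) : ∃ C : ℝ, ∀ (s k u : ℕ) (ε : ℝ), 0 < ε → 
    (∀ (O : Outer m) (i : Fin k → Fin (m - 1)) (μ : Fin k → Law), csize O ≤ s → 
      u * ((m.factorial + 1) * (m.factorial + 2)) ≤ turns i μ ε → 
        (∀ Y : Dia, dsz Y ≤ s → 
          prob μ (fun x => ¬ Separated (ordB m s k) (mem O i x) Y) ≤ C * (8 * ε) ^ ((u : ℝ) / 2)) ∧ 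
        (∀ (O' : Outer m) (i' : Fin k → Fin (m - 1)) (y : Fin k → ℤ), csize O' ≤ s → 
          prob μ (fun x => ¬ Separated (ordB m s k) (mem O i x) (mem O' i' y)) ≤ 
            C * (8 * ε) ^ ((u : ℝ) / 2)) ∧ 
        (∀ B : Set (Fin k → ℤ), 
          (∀ x ∈ B, ∀ y ∈ B, ¬ Separated (ordB m s k) (mem O i x) (mem O i y)) → 
            prob μ (fun x => x ∈ B) ≤ C * (8 * ε) ^ ((u : ℝ) / 2))) ∧ 
    (∀ (M : ℕ) (O : Fin M → Outer m) (i : Fin M → Fin k → Fin (m - 1)) (μ : Fin M → Fin k → Law), 
      (∀ a, csize (O a) ≤ s) → 
      (∀ a, u * ((m.factorial + 1) * (m.factorial + 2)) ≤ turns (i a) (μ a) ε) → 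
        probT μ (fun x => ∃ a b, a ≠ b ∧ 
          ¬ Separated (ordB m s k) (mem (O a) (i a) (x a)) (mem (O b) (i b) (x b))) ≤ 
            (M : ℝ) ^ 2 * (C * (8 * ε) ^ ((u : ℝ) / 2))) := by
  classical
  have hm0 : 0 < m := by omega
  refine ⟨max (Pool.Agent.Y463.UT.CU m) 0, fun s k u ε hε => ?_⟩
  have hp : 0 ≤ (8 * ε) ^ ((u : ℝ) / 2) := Real.rpow_nonneg (by positivity) _
  have hC : Pool.Agent.Y463.UT.CU m * (8 * ε) ^ ((u : ℝ) / 2) ≤ 
      max (Pool.Agent.Y463.UT.CU m) 0 * (8 * ε) ^ ((u : ℝ) / 2) := 
    mul_le_mul_of_nonneg_right (le_max_left _ _) hp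
  have hC0 : 0 ≤ max (Pool.Agent.Y463.UT.CU m) 0 * (8 * ε) ^ ((u : ℝ) / 2) := 
    mul_nonneg (le_max_right _ _) hp
  have hpair : ∀ (O : Outer m) (i : Fin k → Fin (m - 1)) (μ : Fin k → Law), csize O ≤ s → 
      u * ((m.factorial + 1) * (m.factorial + 2)) ≤ turns i μ ε → 
      ∀ (O' : Outer m) (i' : Fin k → Fin (m - 1)) (y : Fin k → ℤ), csize O' ≤ s → 
        prob μ (fun x => ¬ Separated (ordB m s k) (mem O i x) (mem O' i' y)) ≤ 
          max (Pool.Agent.Y463.UT.CU m) 0 * (8 * ε) ^ ((u : ℝ) / 2) := by
    intro O i μ hO hu O' i' y hO'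
    refine ((prob_mono μ _ _ fun x _ h => sep_pair hm0 O O' i i' x y s hO hO' h).trans 
      (prob_val hm O _ k i μ ε hε u hu)).trans hC
  refine ⟨fun O i μ hO hu => ⟨fun Y hY => ?_, hpair O i μ hO hu, fun B hB => ?_⟩, 
    fun M O i μ hO hu => ?_⟩
  · refine ((prob_mono μ _ _ fun x _ h => sep_fixed hm0 O i x Y s hO hY h).trans 
      (prob_val hm O _ k i μ ε hε u hu)).trans hC
  · by_cases hne : ∃ y, y ∈ B
    · obtain ⟨y, hy⟩ := hne
      exact (prob_mono μ _ _ fun x _ hx => hB x hx y hy).trans (hpair O i μ hO hu O i y hO)
    · refine le_trans (le_of_eq ?_) hC0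
      unfold prob
      refine Finset.sum_eq_zero fun x hx => ?_
      exact absurd ⟨x, (Finset.mem_filter.1 hx).2⟩ hne
  · have h1 := tuple μ (fun a b x y => ¬ Separated (ordB m s k) (mem (O a) (i a) x) (mem (O b) (i b) y)) 
      (max (Pool.Agent.Y463.UT.CU m) 0 * (8 * ε) ^ ((u : ℝ) / 2)) 
      (fun a b _ y => hpair (O a) (i a) (μ a) (hO a) (hu a) (O b) (i b) y (hO b))
    rw [max_eq_left hC0] at h1
    exact h1

end Pool.Agent.Results.MP_31fd3b_gt.BoundedOrderPairs
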