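import Pool.Agent.Y466.FT.Fam

/-!
# Vassiliev invariants on families of knots with powers of pure braids

Starting library `Pool.Agent.H835R2.Knot.Defs`: `Word` (oriented sliced diagrams), `IsKnot`,
`Isotopic`, `IsInvariant v` (`v` is an invariant of oriented knots), `DegreeLE n v` (`v` is a Vassiliev
invariant of order at most `n`).

`Pool.Agent.Y466.FT.Defs`: `Braid` (braid words), `pow w m` (the power `w ^ m`, `m ∈ ℤ`), `IsPure w`
(the permutation of the strands is trivial), `family u₀ w u q` (the diagram
`u₀ w₁^{q₁} u₁ w₂^{q₂} u₂ ⋯ w_k^{q_k} u_k`: arbitrary parts `u₀, …, u_k` of a diagram, between them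
powers of braid words on some or all of the strands).

`Pool.Agent.Y466.FT.Fam`: `Separated n D E` (some rational valued Vassiliev invariant of order at
most `n` has different values on `D` and `E`).
-/

set_option autoImplicit false

namespace Pool.Agent.Results.MP_31fd3b_gt.PureBraidLoci

open Pool.Agent.H835R2.Knot Pool.Agent.Y466.FT

open Finset Classical in
/-- Let `D(q)`, `q ∈ ℤ^k`, and `D'(q')`, `q' ∈ ℤ^k'`, be two families of diagrams with powers of pure
braids `w_1^{q_1}, …, w_k^{q_k}` (respectively `w'_1^{q'_1}, …`) at fixed places, such that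
`D(1, …, 1)` and `D'(1, …, 1)` are knot diagrams.  Then all of them are knot diagrams, and

* there are a number `d` and a polynomial `P` in `k + k'` variables such that, for all `q, q'`, the
  knots `D(q)`, `D'(q')` are separated by rational Vassiliev invariants if and only if they are
  separated by rational Vassiliev invariants of order at most `d`, and this is so if and only if
  `P(q, q') ≠ 0`;
* if one pair `D(q), D'(q')` is separated by rational Vassiliev invariants of order at most `n`, then,
  in every box `∏ A_i × ∏ B_j` with sides of at least `M` integers, all pairs but a proportion of at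
  most `n / M` are separated by rational Vassiliev invariants of order at most `n`;
* a Vassiliev invariant of order at most `n` with values in any abelian group which does not
  separate the `(n + k + k' choose n)` pairs with `q ≥ a`, `q' ≥ a'`, `|q - a| + |q' - a'| ≤ n` (for
  some `a, a'`) separates no pair at all. -/
theorem result {k k' : ℕ} (u₀ : Word) (w : Fin k → Braid) (u : Fin k → Word)
    (u₀' : Word) (w' : Fin k' → Braid) (u' : Fin k' → Word)
    (hw : ∀ j, IsPure (w j)) (hw' : ∀ j, IsPure (w' j))
    (h : IsKnot (family u₀ w u 1)) (h' : IsKnot (family u₀' w' u' 1)) :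
    ((∀ q, IsKnot (family u₀ w u q)) ∧ ∀ q', IsKnot (family u₀' w' u' q')) ∧
    (∃ (d : ℕ) (P : MvPolynomial (Fin k ⊕ Fin k') ℚ), ∀ (q : Fin k → ℤ) (q' : Fin k' → ℤ),
      ((∃ n, Separated n (family u₀ w u q) (family u₀' w' u' q')) ↔
        Separated d (family u₀ w u q) (family u₀' w' u' q')) ∧
      (Separated d (family u₀ w u q) (family u₀' w' u' q') ↔
        MvPolynomial.eval (Sum.elim (fun i => (q i : ℚ)) fun i => (q' i : ℚ)) P ≠ 0)) ∧
    (∀ n : ℕ, (∃ q q', Separated n (family u₀ w u q) (family u₀' w' u' q')) →
      ∀ (A : Fin k → Finset ℤ) (B : Fin k' → Finset ℤ) (M : ℕ),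
        (∀ i, M ≤ (A i).card) → (∀ i, M ≤ (B i).card) →
        M * #{z ∈ Fintype.piFinset A ×ˢ Fintype.piFinset B |
          ¬ Separated n (family u₀ w u z.1) (family u₀' w' u' z.2)} ≤
        n * ((∏ i, (A i).card) * ∏ i, (B i).card)) ∧
    (∀ {A : Type} [AddCommGroup A] (n : ℕ) (v : Word → A), IsInvariant v → DegreeLE n v →
      ∀ (a : Fin k → ℤ) (a' : Fin k' → ℤ),
      (∀ q q', a ≤ q → a' ≤ q' → ∑ i, (q i - a i) + ∑ i, (q' i - a' i) ≤ n →
        v (family u₀ w u q) = v (family u₀' w' u' q')) →
      ∀ q q', v (family u₀ w u q) = v (family u₀' w' u' q')) := by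
  have hD := fam_family hw h
  have hD' := fam_family hw' h'
  refine ⟨⟨hD.1, hD'.1⟩, ?_, ?_, ?_⟩
  · obtain ⟨d, P, hP⟩ := locus_pair hD hD'
    exact ⟨d, P, fun q q' => ⟨(hP q q').2.symm, by
      rw [← not_iff_not, not_not]; exact (hP q q').1.symm⟩⟩
  · rintro n ⟨q, q', hs⟩ A B M hA hB
    exact zero_one hD hD' hs A B M hA hB
  · intro A _ n v hv hn a a' hs q q'
    exact simplex_pair hD hD' hv hn a a' hs q q'

end Pool.Agent.Results.MP_31fd3b_gt.PureBraidLoci
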