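import Pool.Agent.Y466.RW.Main

/-!
# Vassiliev invariants of random products of pure braids

Starting library `Pool.Agent.H835R2.Knot.Defs`: `Word` (oriented sliced diagrams), `IsKnot`,
`Isotopic`, `IsInvariant v` (`v` is an invariant of oriented knots), `DegreeLE n v` (`v` is a Vassiliev
invariant of order at most `n`).

`Pool.Agent.Y466.FT.Defs`: `Braid` (braid words), `IsPure w` (the permutation of the strands is
trivial).  `Pool.Agent.Y466.RW.Defs`: `rand u₀ u x w`: each letter of the word `w` stands for `k` braid
words, one for each place of the diagram `u₀ u₁ ⋯ u_k` (with `none` the empty letter), and their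
products are inserted at the places.

`Pool.Agent.Y466.FT.Fam`: `Separated n D E` (some rational valued Vassiliev invariant of order at
most `n` has different values on `D` and `E`).
-/

set_option autoImplicit false

namespace Pool.Agent.Results.MP_31fd3b_gt.RandomPureBraids

open Pool.Agent.H835R2.Knot Pool.Agent.Y466.FT Pool.Agent.Y466.RW

open Finset Classical in
/-- Let `L` be an alphabet with `r` letters, each of which stands for `k` pure braids, one for each of
`k` places of a diagram.  For a word `w` of length `N` in `L ∪ {∅}` let `D(w)` be the diagram with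
the products of these pure braids inserted at the places.  Let `D'(w')` be given in the same way by an
alphabet `L'` with `r'` letters, and suppose that the `D(s)`, `D'(s')` with one letter are knot
diagrams.  Then all of them are knot diagrams, and

* **anti-concentration**: if a Vassiliev invariant `v` of order at most `n` with values in a
  torsion-free group is not constant on the `D(w)` (all words of all lengths), then each value is taken
  with probability at most `3 ((r + 1)/(N + 1))^(1/2^n)` on the random `D(w)`, `w` of length `N`;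
* **zero-one law**: if one pair `D(w), D'(w')` is separated by rational Vassiliev invariants of order
  at most `n`, then two random ones, of lengths `N` and `N'`, are separated by rational Vassiliev
  invariants of order at most `n` with probability at least
  `1 - 3 ((r + 1)/(N + 1))^(1/2^n) - 3 ((r' + 1)/(N' + 1))^(1/2^n)`;
* **finite test**: a Vassiliev invariant of order at most `n` with values in any abelian group which
  does not separate the `D(w)` from the `D'(w')` for the words of length at most `n` does not separate
  any `D(w)` from any `D'(w')`. -/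
theorem result {L L' : Type} [Fintype L] [Fintype L'] {k k' : ℕ}
    (u₀ : Word) (u : Fin k → Word) (x : L → Fin k → Braid)
    (u₀' : Word) (u' : Fin k' → Word) (x' : L' → Fin k' → Braid)
    (hx : ∀ s i, IsPure (x s i)) (hx' : ∀ s i, IsPure (x' s i))
    (h : ∀ o : Option L, IsKnot (rand u₀ u x fun _ : Fin 1 => o))
    (h' : ∀ o : Option L', IsKnot (rand u₀' u' x' fun _ : Fin 1 => o)) :
    ((∀ (N : ℕ) (w : Fin N → Option L), IsKnot (rand u₀ u x w)) ∧
      ∀ (N : ℕ) (w : Fin N → Option L'), IsKnot (rand u₀' u' x' w)) ∧
    (∀ {A : Type} [AddCommGroup A], (∀ (n : ℕ) (a : A), n ≠ 0 → n • a = 0 → a = 0) →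
      ∀ (n : ℕ) (v : Word → A), IsInvariant v → DegreeLE n v →
      (∃ (N₀ N₁ : ℕ) (w₀ : Fin N₀ → Option L) (w₁ : Fin N₁ → Option L),
        v (rand u₀ u x w₀) ≠ v (rand u₀ u x w₁)) →
      ∀ (N : ℕ) (c : A), (#{w : Fin N → Option L | v (rand u₀ u x w) = c} : ℝ) ≤
        3 * (((Fintype.card L : ℝ) + 1) / (N + 1)) ^ ((1 / 2 : ℝ) ^ n) *
          ((Fintype.card L : ℝ) + 1) ^ N) ∧
    (∀ n : ℕ, (∃ (N₀ N₀' : ℕ) (w₀ : Fin N₀ → Option L) (w₀' : Fin N₀' → Option L'),
        Separated n (rand u₀ u x w₀) (rand u₀' u' x' w₀')) →
      ∀ N N' : ℕ, (#{z : (Fin N → Option L) × (Fin N' → Option L') |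
          ¬ Separated n (rand u₀ u x z.1) (rand u₀' u' x' z.2)} : ℝ) ≤
        (3 * (((Fintype.card L : ℝ) + 1) / (N + 1)) ^ ((1 / 2 : ℝ) ^ n) +
          3 * (((Fintype.card L' : ℝ) + 1) / (N' + 1)) ^ ((1 / 2 : ℝ) ^ n)) *
          (((Fintype.card L : ℝ) + 1) ^ N * ((Fintype.card L' : ℝ) + 1) ^ N')) ∧
    (∀ {A : Type} [AddCommGroup A] (n : ℕ) (v : Word → A), IsInvariant v → DegreeLE n v →
      (∀ (w : Fin n → Option L) (w' : Fin n → Option L'),
        v (rand u₀ u x w) = v (rand u₀' u' x' w')) →
      ∀ (N N' : ℕ) (w : Fin N → Option L) (w' : Fin N' → Option L'),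
        v (rand u₀ u x w) = v (rand u₀' u' x' w')) := by
  have hD := wfam_rand hx h
  have hD' := wfam_rand hx' h'
  have e1 : ((Fintype.card (Option L) : ℕ) : ℝ) = (Fintype.card L : ℝ) + 1 := by
    rw [Fintype.card_option]; push_cast; rfl
  have e1' : ((Fintype.card (Option L') : ℕ) : ℝ) = (Fintype.card L' : ℝ) + 1 := by
    rw [Fintype.card_option]; push_cast; rfl
  simp only [rand_eq]
  refine ⟨⟨fun N w => hD.1 _, fun N w => hD'.1 _⟩, ?_, ?_, ?_⟩
  · rintro A _ htf n v hv hn ⟨N₀, N₁, w₀, w₁, hne⟩ N c
    have := value hD htf hv hn hne N c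
    unfold bb at this
    rw [e1] at this
    convert this
  · rintro n ⟨N₀, N₀', w₀, w₀', hs⟩ N N'
    have := pair_count hD hD' hs N N'
    unfold bb at this
    rw [e1, e1'] at this
    convert this
  · intro A _ n v hv hn ht N N' w w'
    exact test_pair hD hD' hv hn ht _ _

end Pool.Agent.Results.MP_31fd3b_gt.RandomPureBraids
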