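import Pool.Agent.Y466.SH.Main

/-!
# The order of the Vassiliev invariants which separate the knots with a given number of crossings

Starting library `Pool.Agent.H835R2.Knot.Defs`: `Word` (oriented sliced diagrams), `IsKnot`,
`Isotopic`, `crossings`, `IsInvariant v` (`v` is an invariant of oriented knots), `DegreeLE n v` (`v` is
a Vassiliev invariant of order at most `n`, with values in any abelian group).
-/

set_option autoImplicit false

namespace Pool.Agent.Results.MP_31fd3b_gt.ShortCompanions

open Pool.Agent.H835R2.Knot

/-- Let `D` be any knot diagram and `n ≥ 1`.  There are pairwise non-isotopic knots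
`K 0 = D, K 1, K 2, …`, `K j` with at most `j (8 n ^ α + 2)` crossings more than `D`, where
`α = log 2 / log φ = 1.4404…` (`φ` is the golden ratio), such that no Vassiliev invariant of order at
most `n`, with values in any abelian group, separates them: `v (K j) = v D` for all `j`.

So Vassiliev invariants of order less than `(c / 10) ^ (1 / α)`, `1 / α = 0.694…`, do not separate the
knots with `c` crossings more than a given one. -/
theorem result (n : ℕ) (hn : 1 ≤ n) (D : Word) (hD : IsKnot D) :
    ∃ K : ℕ → Word, K 0 = D ∧ (∀ j, IsKnot (K j)) ∧ (∀ i j, Isotopic (K i) (K j) → i = j) ∧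
      (∀ j, (crossings (K j) : ℝ) ≤
        crossings D + j * (8 * (n : ℝ) ^ (Real.log 2 / Real.log Real.goldenRatio) + 2)) ∧
      ∀ (A : Type) [AddCommGroup A] (v : Word → A), IsInvariant v → DegreeLE n v →
        ∀ j, v (K j) = v D :=
  Pool.Agent.Y466.SH.main n hn D hD

end Pool.Agent.Results.MP_31fd3b_gt.ShortCompanions
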